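import Pool.Agent.N585.FP.Alg2

/-!
# The algorithm runs in polynomial time
-/

set_option autoImplicit false

namespace Pool.Agent.NPC.N585FP

open Pool.Agent.N585.FP Pool.Agent.H622R2

variable {α : Type} [TEnc α]

@[fun_prop] theorem poly_adjB {M : α → List (List Bool)} {x y : α → ℕ} (hM : Poly M) (hx : Poly x)
    (hy : Poly y) : Poly (fun a => adjB (M a) (x a) (y a)) := by
  unfold adjB entry
  fun_prop

@[fun_prop] theorem poly_ixs (L : ℕ) {s : α → List (Option (ℕ × Bool))} (hs : Poly s) :
    Poly (fun a => ixs L (s a)) := by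
  unfold ixs
  fun_prop

@[fun_prop] theorem poly_nearB (B : ℕ) {i j : α → ℕ} (hi : Poly i) (hj : Poly j) :
    Poly (fun a => nearB B (i a) (j a)) := by
  unfold nearB
  fun_prop

@[fun_prop] theorem poly_crossB {e e' : α → ℕ × ℕ} (he : Poly e) (he' : Poly e') :
    Poly (fun a => crossB (e a) (e' a)) := by
  unfold crossB
  fun_prop

@[fun_prop] theorem poly_nearL (B : ℕ) {l : α → List (ℕ × ℕ × Bool)} {c : α → ℕ × ℕ × Bool}
    {y : α → ℕ} (hl : Poly l) (hc : Poly c) (hy : Poly y) :
    Poly (fun a => nearL B (l a) (c a) (y a)) := by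
  unfold nearL
  fun_prop

@[fun_prop] theorem poly_pes (B : ℕ) {M : α → List (List Bool)} {l : α → List (ℕ × ℕ × Bool)}
    (hM : Poly M) (hl : Poly l) : Poly (fun a => pes (M a) B (l a)) := by
  unfold pes
  fun_prop

@[fun_prop] theorem poly_nbrB (B : ℕ) {M : α → List (List Bool)} {U : α → List ℕ}
    {l : α → List (ℕ × ℕ × Bool)} {c : α → ℕ × ℕ × Bool}
    (hM : Poly M) (hU : Poly U) (hl : Poly l) (hc : Poly c) :
    Poly (fun a => nbrB (M a) B (U a) (l a) (c a)) := by
  unfold nbrB
  fun_prop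

@[fun_prop] theorem poly_fanB {l : α → List (ℕ × ℕ)} (hl : Poly l) :
    Poly (fun a => fanB (l a)) := by
  unfold fanB
  fun_prop

@[fun_prop] theorem poly_chk (B R : ℕ) {x : α → List (List Bool) × List ℕ}
    {s : α → List (Option (ℕ × Bool))} (hx : Poly x) (hs : Poly s) :
    Poly (fun a => chk B R (x a) (s a)) := by
  unfold chk chkL
  fun_prop

@[fun_prop] theorem poly_symbs {U : α → List ℕ} (hU : Poly U) : Poly (fun a => symbs (U a)) := by
  unfold symbs
  fun_prop

@[fun_prop] theorem poly_alph {U : α → List ℕ} {t : α → ℕ} (hU : Poly U) (ht : Poly t) :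
    Poly (fun a => alph (U a) (t a)) := by
  unfold alph
  fun_prop

theorem poly_connB (B R : ℕ) : Poly (connB B R) := by
  unfold connB
  refine Poly.not (Poly.isEmpty ?_)
  refine poly_dp (A := fun x : List (List Bool) × List ℕ => symbs x.2) (al := fun x => alph x.2)
    (chk := fun x => chk B R x) (by fun_prop) (by fun_prop) (by fun_prop) _ ?_
  exact UPoly.add (UPoly.length (Poly.snd Poly.id)) (UPoly.const _)

end Pool.Agent.NPC.N585FP
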