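import Mathlib

/-!
# 2-layer fan-planar graphs: definitions and statements

The geometric definition of 2-layer fan-planar graphs, a combinatorial form of it (`Drawable`), and
the statements from which a polynomial-time algorithm is assembled.
-/

set_option autoImplicit false

namespace Pool.Agent.N585.FP

/-! ### Geometry -/

/-- The cross product of two plane vectors: positive when `w` points to the left of `v`. -/
def cp (v w : ℝ × ℝ) : ℝ := v.1 * w.2 - v.2 * w.1

/-- Two edges (given as pairs of vertices) which have no common endpoint. -/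
def NoCommon {V : Type} (e e' : V × V) : Prop :=
  e.1 ≠ e'.1 ∧ e.1 ≠ e'.2 ∧ e.2 ≠ e'.1 ∧ e.2 ≠ e'.2

/-- The pairs `e` and `e'` are the same unordered pair. -/
def SamePair {V : Type} (e e' : V × V) : Prop := e = e' ∨ e = e'.swap

/-- The point `x` is an inner point of the straight segments of both `e` and `e'`. -/
def MeetInside {V : Type} (f : V → ℝ × ℝ) (e e' : V × V) (x : ℝ × ℝ) : Prop :=
  x ∈ openSegment ℝ (f e.1) (f e.2) ∧ x ∈ openSegment ℝ (f e'.1) (f e'.2)

/-- `f` places the vertices of `G` in the plane so that, with straight segments as edges, one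
obtains a drawing: the vertices are distinct points, no edge passes through a vertex, two different
edges meet only at a common endpoint or at a proper crossing (an inner point of both at which each
passes from one side of the other to the other side, that is, their directions are linearly
independent), and no three edges cross at one point. -/
structure IsDrawing {V : Type} (G : SimpleGraph V) (f : V → ℝ × ℝ) : Prop where
  inj : Function.Injective f
  avoid : ∀ e : V × V, G.Adj e.1 e.2 → ∀ w : V, f w ∉ openSegment ℝ (f e.1) (f e.2)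
  meet : ∀ e e' : V × V, G.Adj e.1 e.2 → G.Adj e'.1 e'.2 → ¬ SamePair e e' →
    ∀ x : ℝ × ℝ, x ∈ segment ℝ (f e.1) (f e.2) → x ∈ segment ℝ (f e'.1) (f e'.2) →
      (∃ w : V, (w = e.1 ∨ w = e.2) ∧ (w = e'.1 ∨ w = e'.2) ∧ x = f w) ∨
        (MeetInside f e e' x ∧ cp (f e.2 - f e.1) (f e'.2 - f e'.1) ≠ 0)
  triple : ∀ e e' e'' : V × V, G.Adj e.1 e.2 → G.Adj e'.1 e'.2 → G.Adj e''.1 e''.2 →
    ¬ SamePair e e' → ¬ SamePair e e'' → ¬ SamePair e' e'' →
      ∀ x : ℝ × ℝ, ¬ (MeetInside f e e' x ∧ MeetInside f e e'' x)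

/-- In the straight-line drawing `f`, the edges `e` and `e'` cross. -/
def Crosses {V : Type} (f : V → ℝ × ℝ) (e e' : V × V) : Prop :=
  ¬ SamePair e e' ∧ ∃ x, MeetInside f e e' x

/-- The straight-line drawing `f` of `G` is fan-planar: it has neither configuration (I), an edge
`e` crossed by two edges with no common endpoint, nor configuration (II), an edge `e` crossed by
two edges `uv`, `uw` with common endpoint `u` from opposite sides: moving away from `u`, the first
passes from the left of `e` to its right and the second from the right of `e` to its left. -/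
structure IsFanPlanar {V : Type} (G : SimpleGraph V) (f : V → ℝ × ℝ) : Prop where
  drawing : IsDrawing G f
  confI : ∀ e e₁ e₂ : V × V, G.Adj e.1 e.2 → G.Adj e₁.1 e₁.2 → G.Adj e₂.1 e₂.2 →
    Crosses f e e₁ → Crosses f e e₂ → ¬ NoCommon e₁ e₂
  confII : ∀ (e : V × V) (u v w : V), G.Adj e.1 e.2 → G.Adj u v → G.Adj u w →
    Crosses f e (u, v) → Crosses f e (u, w) →
      ¬ (cp (f e.2 - f e.1) (f v - f u) < 0 ∧ 0 < cp (f e.2 - f e.1) (f w - f u))

/-- `G` is 2-layer fan-planar: it has a fan-planar drawing in which every vertex lies on one of two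
distinct horizontal lines and every edge is a straight segment joining vertices on different
lines. -/
def TwoLayerFanPlanar {V : Type} (G : SimpleGraph V) : Prop :=
  ∃ (f : V → ℝ × ℝ) (y₀ y₁ : ℝ), y₀ ≠ y₁ ∧ (∀ v, (f v).2 = y₀ ∨ (f v).2 = y₁) ∧
    (∀ u v, G.Adj u v → (f u).2 ≠ (f v).2) ∧ IsFanPlanar G f

/-! ### Combinatorics

The vertices are natural numbers, `U` is the set of the vertices considered.  The function `side`
says on which line a vertex lies (`true`: top line) and `p` is the horizontal position. -/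

/-- The edges `a b` and `a' b'` (with `a`, `a'` on one line, `b`, `b'` on the other) cross. -/
def Cross (p : ℕ → ℕ) (a b a' b' : ℕ) : Prop :=
  (p a < p a' ∧ p b' < p b) ∨ (p a' < p a ∧ p b < p b')

/-- `a b` is an edge of `G` inside `U`, `a` on the top line and `b` on the bottom line. -/
def Ed (G : SimpleGraph ℕ) (U : Finset ℕ) (side : ℕ → Bool) (a b : ℕ) : Prop :=
  a ∈ U ∧ b ∈ U ∧ side a = true ∧ side b = false ∧ G.Adj a b

/-- Combinatorial 2-layer fan-planar drawings of the induced subgraph `G[U]`. -/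
structure Draw (G : SimpleGraph ℕ) (U : Finset ℕ) (side : ℕ → Bool) (p : ℕ → ℕ) : Prop where
  inj : ∀ x ∈ U, ∀ y ∈ U, p x = p y → x = y
  bip : ∀ x ∈ U, ∀ y ∈ U, G.Adj x y → side x ≠ side y
  fan : ∀ a b a₁ b₁ a₂ b₂ : ℕ, Ed G U side a b → Ed G U side a₁ b₁ → Ed G U side a₂ b₂ →
    Cross p a b a₁ b₁ → Cross p a b a₂ b₂ → a₁ = a₂ ∨ b₁ = b₂

/-- `G[U]` has a combinatorial 2-layer fan-planar drawing. -/
def Drawable (G : SimpleGraph ℕ) (U : Finset ℕ) : Prop := ∃ side p, Draw G U side p

/-- `x` and `y` have the same neighbours in `U`. -/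
def Twin (G : SimpleGraph ℕ) (U : Finset ℕ) (x y : ℕ) : Prop := ∀ z ∈ U, (G.Adj x z ↔ G.Adj y z)

/-- No four different vertices of `U` have the same neighbours in `U`. -/
def NoFour (G : SimpleGraph ℕ) (U : Finset ℕ) : Prop :=
  ∀ S : Finset ℕ, S ⊆ U → (∀ x ∈ S, ∀ y ∈ S, Twin G U x y) → S.card ≤ 3

/-- Every vertex of `U` has at most `D` neighbours in `U`. -/
def DegLe (G : SimpleGraph ℕ) (U : Finset ℕ) (D : ℕ) : Prop :=
  ∀ x ∈ U, ∀ S : Finset ℕ, S ⊆ U → (∀ y ∈ S, G.Adj x y) → S.card ≤ D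

/-- `y` can be reached from `x` inside `U`. -/
def Reach (G : SimpleGraph ℕ) (U : Finset ℕ) (x y : ℕ) : Prop :=
  Relation.ReflTransGen (fun a b => a ∈ U ∧ b ∈ U ∧ G.Adj a b) x y

/-- `G[U]` is connected (or `U` is empty). -/
def Conn (G : SimpleGraph ℕ) (U : Finset ℕ) : Prop := ∀ x ∈ U, ∀ y ∈ U, Reach G U x y

open Classical in
/-- The vertices of the component of `x` in `G[U]`. -/
noncomputable def comp (G : SimpleGraph ℕ) (U : Finset ℕ) (x : ℕ) : Finset ℕ :=
  U.filter fun y => Reach G U x y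

open Classical in
/-- The vertices below `n` with less than three smaller twins in `G[{0, ..., n-1}]`. -/
noncomputable def ker (G : SimpleGraph ℕ) (n : ℕ) : Finset ℕ :=
  (Finset.range n).filter fun x =>
    ((Finset.range x).filter fun y => Twin G (Finset.range n) x y).card < 3

/-- Positions `i` and `j` are near. -/
def Near (B i j : ℕ) : Prop := i ≤ j + B ∧ j ≤ i + B

/-- The positions `i` (top) and `j` (bottom) form an edge of the labelled sequence `u`. -/
def PEd (G : SimpleGraph ℕ) (n B : ℕ) (u : ℕ → ℕ × Bool) (i j : ℕ) : Prop :=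
  i < n ∧ j < n ∧ Near B i j ∧ (u i).2 = true ∧ (u j).2 = false ∧ G.Adj (u i).1 (u j).1

/-- The sequence `u 0, ..., u (n-1)` of vertices with sides satisfies all local conditions. -/
structure Loc (G : SimpleGraph ℕ) (U : Finset ℕ) (n B : ℕ) (u : ℕ → ℕ × Bool) : Prop where
  mem : ∀ i < n, (u i).1 ∈ U
  nbr : ∀ i < n, ∀ x ∈ U, G.Adj (u i).1 x → ∃ j < n, Near B i j ∧ (u j).1 = x ∧
    (u j).2 ≠ (u i).2 ∧ ∀ k < n, Near B i k → (u k).1 = x → k = j
  fan : ∀ a b a₁ b₁ a₂ b₂ : ℕ, PEd G n B u a b → PEd G n B u a₁ b₁ → PEd G n B u a₂ b₂ →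
    Cross id a b a₁ b₁ → Cross id a b a₂ b₂ → a₁ = a₂ ∨ b₁ = b₂

/-! ### Statements -/

/-- FP/1: the geometric definition agrees with the combinatorial one. -/
def StmGeo : Prop := ∀ (n : ℕ) (G : SimpleGraph (Fin n)) (H : SimpleGraph ℕ),
  (∀ i j : Fin n, G.Adj i j ↔ H.Adj i j) → (TwoLayerFanPlanar G ↔ Drawable H (Finset.range n))

/-- FP/2: a vertex with three twins can be added. -/
def StmTwin : Prop := ∀ (G : SimpleGraph ℕ) (U : Finset ℕ) (v d₁ d₂ d₃ : ℕ), v ∉ U →
  d₁ ∈ U → d₂ ∈ U → d₃ ∈ U → d₁ ≠ d₂ → d₁ ≠ d₃ → d₂ ≠ d₃ →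
  Twin G (insert v U) v d₁ → Twin G (insert v U) v d₂ → Twin G (insert v U) v d₃ →
  Drawable G U → Drawable G (insert v U)

/-- FP/3: the kernel. -/
def StmKer : Prop := ∀ (G : SimpleGraph ℕ) (n : ℕ),
  (Drawable G (Finset.range n) ↔ Drawable G (ker G n)) ∧ NoFour G (ker G n)

/-- FP/4: bounded degree. -/
def StmDeg : Prop := ∀ (G : SimpleGraph ℕ) (U : Finset ℕ), NoFour G U → Drawable G U →
  DegLe G U 16

/-- FP/5: bounded bandwidth. -/
def StmBand : Prop := ∀ (G : SimpleGraph ℕ) (U : Finset ℕ) (D : ℕ), DegLe G U D →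
  (∀ x ∈ U, ∃ y ∈ U, G.Adj x y) → Drawable G U →
    ∃ side q, Draw G U side q ∧ (∀ x ∈ U, q x < U.card) ∧
      ∀ x ∈ U, ∀ y ∈ U, G.Adj x y → q x ≤ q y + 4 * D

/-- FP/6: from local conditions to drawings, for connected graphs. -/
def StmLoc : Prop := ∀ (G : SimpleGraph ℕ) (U : Finset ℕ) (B : ℕ) (u : ℕ → ℕ × Bool),
  Conn G U → Loc G U U.card B u → Drawable G U

/-- FP/6, converse. -/
def StmLoc' : Prop := ∀ (G : SimpleGraph ℕ) (U : Finset ℕ) (B : ℕ) (side : ℕ → Bool) (q : ℕ → ℕ),
  Draw G U side q → (∀ x ∈ U, q x < U.card) →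
    (∀ x ∈ U, ∀ y ∈ U, G.Adj x y → q x ≤ q y + B) → ∃ u, Loc G U U.card B u

/-- FP/7: components. -/
def StmComp : Prop := ∀ (G : SimpleGraph ℕ) (U : Finset ℕ),
  (Drawable G U ↔ ∀ x ∈ U, Drawable G (comp G U x)) ∧
    (NoFour G U → ∀ x ∈ U, NoFour G (comp G U x)) ∧ ∀ x ∈ U, Conn G (comp G U x)

end Pool.Agent.N585.FP
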