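import Pool.Agent.N585.FP.DP
import Pool.Agent.N585.FP.Defs
import Pool.Agent.H622R2.MatGraph

/-!
# The local test and its meaning
-/

set_option autoImplicit false

namespace Pool.Agent.NPC.N585FP

open Pool.Agent.N585.FP Pool.Agent.H622R2

/-- The adjacency test of the graph given by the matrix `M`. -/
def adjB (M : List (List Bool)) (x y : ℕ) : Bool := !(decide (x = y)) && (entry M x y || entry M y x)

theorem adjB_comm (M : List (List Bool)) (x y : ℕ) : adjB M x y = adjB M y x := by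
  unfold adjB
  rw [Bool.or_comm]
  congr 2
  exact decide_eq_decide.2 eq_comm

/-- The graph on the natural numbers given by the matrix `M`. -/
def natG (M : List (List Bool)) : SimpleGraph ℕ where
  Adj x y := adjB M x y = true
  symm := ⟨fun x y h => by rw [adjB_comm]; exact h⟩
  loopless := ⟨fun x h => by simp [adjB] at h⟩

theorem natG_adj (M : List (List Bool)) (x y : ℕ) : (natG M).Adj x y ↔ adjB M x y = true := Iff.rfl

/-- The entries of a window, with their indices. -/
def ixs (L : ℕ) (s : List (Option (ℕ × Bool))) : List (ℕ × ℕ × Bool) :=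
  (List.range L).flatMap fun k => (s.getD k none).elim [] fun x => [(k, x)]

theorem mem_ixs (L : ℕ) (s : List (Option (ℕ × Bool))) (k : ℕ) (x : ℕ × Bool) :
    (k, x) ∈ ixs L s ↔ k < L ∧ s.getD k none = some x := by
  unfold ixs
  simp only [List.mem_flatMap, List.mem_range]
  constructor
  · rintro ⟨j, hj, h⟩
    cases hs : s.getD j none with
    | none => rw [hs] at h; simp at h
    | some y =>
      rw [hs] at h
      simp only [Option.elim_some, List.mem_singleton, Prod.mk.injEq] at h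
      obtain ⟨rfl, rfl⟩ := h
      exact ⟨hj, hs⟩
  · rintro ⟨hk, hs⟩
    exact ⟨k, hk, by rw [hs]; simp⟩

/-- The indices `i` and `j` are near. -/
def nearB (B i j : ℕ) : Bool := decide (i ≤ j + B) && decide (j ≤ i + B)

theorem nearB_iff (B i j : ℕ) : nearB B i j = true ↔ Near B i j := by
  simp [nearB, Near]

/-- The crossing test. -/
def crossB (e e' : ℕ × ℕ) : Bool :=
  (decide (e.1 < e'.1) && decide (e'.2 < e.2)) || (decide (e'.1 < e.1) && decide (e.2 < e'.2))

theorem crossB_iff (e e' : ℕ × ℕ) : crossB e e' = true ↔ Cross id e.1 e.2 e'.1 e'.2 := by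
  simp [crossB, Cross]

/-- The entries near `c` with label `y`. -/
def nearL (B : ℕ) (l : List (ℕ × ℕ × Bool)) (c : ℕ × ℕ × Bool) (y : ℕ) : List (ℕ × ℕ × Bool) :=
  l.filter fun d => nearB B c.1 d.1 && decide (d.2.1 = y)

/-- The edges of a window. -/
def pes (M : List (List Bool)) (B : ℕ) (l : List (ℕ × ℕ × Bool)) : List (ℕ × ℕ) :=
  l.flatMap fun c => (l.filter fun d => nearB B c.1 d.1 && (c.2.2 && (!d.2.2 &&
    adjB M c.2.1 d.2.1))).map fun d => (c.1, d.1)

/-- The neighbour test at the entry `c`. -/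
def nbrB (M : List (List Bool)) (B : ℕ) (U : List ℕ) (l : List (ℕ × ℕ × Bool))
    (c : ℕ × ℕ × Bool) : Bool :=
  U.all fun y => !(adjB M c.2.1 y) || (nearL B l c y).any fun d =>
    !(decide (d.2.2 = c.2.2)) && (nearL B l c y).all fun d' => decide (d' = d)

/-- The fan test for a list of edges. -/
def fanB (l : List (ℕ × ℕ)) : Bool :=
  l.all fun e => l.all fun e₁ => l.all fun e₂ => !(crossB e e₁ && crossB e e₂) ||
    (decide (e₁.1 = e₂.1) || decide (e₁.2 = e₂.2))

/-- The local test of a window, given by its entries. -/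
def chkL (B R : ℕ) (x : List (List Bool) × List ℕ) (l : List (ℕ × ℕ × Bool)) : Bool :=
  (l.all fun c => !(decide (c.1 = R)) || nbrB x.1 B x.2 l c) && fanB (pes x.1 B l)

/-- The local test of a window. -/
def chk (B R : ℕ) (x : List (List Bool) × List ℕ) (s : List (Option (ℕ × Bool))) : Bool :=
  chkL B R x (ixs (2 * R + 1) s)

theorem nbrB_iff (M : List (List Bool)) (B : ℕ) (U : List ℕ) (l : List (ℕ × ℕ × Bool))
    (c : ℕ × ℕ × Bool) : nbrB M B U l c = true ↔ ∀ y ∈ U, adjB M c.2.1 y = true →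
      ∃ d ∈ l, Near B c.1 d.1 ∧ d.2.1 = y ∧ d.2.2 ≠ c.2.2 ∧
        ∀ d' ∈ l, Near B c.1 d'.1 → d'.2.1 = y → d' = d := by
  unfold nbrB nearL
  simp only [List.all_eq_true, Bool.or_eq_true, Bool.not_eq_true', List.any_eq_true,
    List.mem_filter, Bool.and_eq_true, nearB_iff, decide_eq_true_eq, decide_eq_false_iff_not]
  constructor
  · intro h y hy hadj
    rcases h y hy with h | ⟨d, ⟨hd, hn, hy'⟩, hs, hu⟩
    · rw [h] at hadj; exact absurd hadj (by simp)
    · exact ⟨d, hd, hn, hy', hs, fun d' h1 h2 h3 => hu d' ⟨h1, h2, h3⟩⟩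
  · intro h y hy
    cases hadj : adjB M c.2.1 y with
    | false => exact Or.inl rfl
    | true =>
      obtain ⟨d, hd, hn, hy', hs, hu⟩ := h y hy hadj
      exact Or.inr ⟨d, ⟨hd, hn, hy'⟩, hs, fun d' h1 => hu d' h1.1 h1.2.1 h1.2.2⟩

theorem mem_pes (M : List (List Bool)) (B : ℕ) (l : List (ℕ × ℕ × Bool)) (e : ℕ × ℕ) :
    e ∈ pes M B l ↔ ∃ c ∈ l, ∃ d ∈ l, Near B c.1 d.1 ∧ c.2.2 = true ∧ d.2.2 = false ∧
      adjB M c.2.1 d.2.1 = true ∧ e = (c.1, d.1) := by
  unfold pes
  simp only [List.mem_flatMap, List.mem_map, List.mem_filter, Bool.and_eq_true, nearB_iff,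
    Bool.not_eq_true']
  constructor
  · rintro ⟨c, hc, d, ⟨hd, h1, h2, h3, h4⟩, rfl⟩
    exact ⟨c, hc, d, hd, h1, h2, h3, h4, rfl⟩
  · rintro ⟨c, hc, d, hd, h1, h2, h3, h4, rfl⟩
    exact ⟨c, hc, d, ⟨hd, h1, h2, h3, h4⟩, rfl⟩

theorem fanB_iff (l : List (ℕ × ℕ)) : fanB l = true ↔ ∀ e ∈ l, ∀ e₁ ∈ l, ∀ e₂ ∈ l,
    Cross id e.1 e.2 e₁.1 e₁.2 → Cross id e.1 e.2 e₂.1 e₂.2 → e₁.1 = e₂.1 ∨ e₁.2 = e₂.2 := by
  unfold fanB
  simp only [List.all_eq_true, Bool.or_eq_true, Bool.not_eq_true', decide_eq_true_eq]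
  constructor
  · intro h e he e₁ h₁ e₂ h₂ c₁ c₂
    rcases h e he e₁ h₁ e₂ h₂ with h | h
    · rw [(crossB_iff e e₁).2 c₁, (crossB_iff e e₂).2 c₂] at h
      exact absurd h (by simp)
    · exact h
  · intro h e he e₁ h₁ e₂ h₂
    cases hc : (crossB e e₁ && crossB e e₂) with
    | false => exact Or.inl rfl
    | true =>
      rw [Bool.and_eq_true] at hc
      exact Or.inr (h e he e₁ h₁ e₂ h₂ ((crossB_iff _ _).1 hc.1) ((crossB_iff _ _).1 hc.2))

/-! ### Windows of a sequence -/

/-- The word `W (T-1), ..., W 0`. -/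
def wd {σ : Type} (W : ℕ → σ) (T : ℕ) : List σ := ((List.range T).map W).reverse

theorem wd_succ {σ : Type} (W : ℕ → σ) (T : ℕ) : wd W (T + 1) = W T :: wd W T := by
  simp [wd, List.range_succ]

theorem wd_length {σ : Type} (W : ℕ → σ) (T : ℕ) : (wd W T).length = T := by simp [wd]

theorem exists_wd {σ : Type} (d : σ) (w : List σ) : ∃ W : ℕ → σ, w = wd W w.length := by
  refine ⟨fun p => w.reverse.getD p d, ?_⟩
  unfold wd
  rw [← List.reverse_inj, List.reverse_reverse]
  apply List.ext_getElem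
  · simp
  · intro i h1 h2
    have h3 : i < w.reverse.length := h1
    simp only [List.getElem_map, List.getElem_range]
    rw [List.getD_eq_getElem?_getD, List.getElem?_eq_getElem h3]
    rfl

theorem ok_wd {σ : Type} (al : ℕ → List σ) (ck : List σ → Bool) (L : ℕ) (W : ℕ → σ) (T : ℕ) :
    Ok al ck L (wd W T) ↔ ∀ t < T, W t ∈ al t ∧ ck ((wd W (t + 1)).take L) = true := by
  induction T with
  | zero => simp [wd, Ok]
  | succ T ih =>
    rw [wd_succ]
    unfold Ok
    rw [ih, ← wd_succ, wd_length]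
    constructor
    · rintro ⟨h1, h2, h3⟩ t ht
      rcases Nat.lt_succ_iff_lt_or_eq.1 ht with ht | rfl
      · exact h1 t ht
      · exact ⟨h2, h3⟩
    · intro h
      exact ⟨fun t ht => h t (by omega), (h T (by omega)).1, (h T (by omega)).2⟩

/-- The symbols of the padded sequence. -/
def sy (u : ℕ → ℕ × Bool) (n p : ℕ) : Option (ℕ × Bool) := if p < n then some (u p) else none

/-- The window at time `t`. -/
def win (u : ℕ → ℕ × Bool) (n L t : ℕ) : List (Option (ℕ × Bool)) := (wd (sy u n) (t + 1)).take L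

theorem getElem?_wd {σ : Type} (W : ℕ → σ) (T k : ℕ) :
    (wd W T)[k]? = if k < T then some (W (T - 1 - k)) else none := by
  unfold wd
  split_ifs with h
  · rw [List.getElem?_reverse (by simpa using h)]
    simp only [List.length_map, List.length_range, List.getElem?_map]
    rw [List.getElem?_range (by omega)]
    simp
  · rw [List.getElem?_eq_none]
    simp; omega

theorem mem_win (u : ℕ → ℕ × Bool) (n L t k : ℕ) (x : ℕ × Bool) :
    (k, x) ∈ ixs L (win u n L t) ↔ ∃ p, p < n ∧ p ≤ t ∧ t < p + L ∧ k = t - p ∧ x = u p := by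
  rw [mem_ixs]
  unfold win
  rw [List.getD_eq_getElem?_getD, List.getElem?_take]
  constructor
  · rintro ⟨hk, h⟩
    rw [if_pos hk, getElem?_wd] at h
    split_ifs at h with h1
    · simp only [Option.getD_some] at h
      unfold sy at h
      split_ifs at h with h2
      simp only [Option.some.injEq] at h
      exact ⟨t + 1 - 1 - k, h2, by omega, by omega, by omega, h.symm⟩
    · simp at h
  · rintro ⟨p, h1, h2, h3, rfl, rfl⟩
    have h4 : t - p < L := by omega
    refine ⟨h4, ?_⟩
    rw [if_pos h4, getElem?_wd, if_pos (by omega)]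
    simp only [Option.getD_some]
    have h5 : t + 1 - 1 - (t - p) = p := by omega
    rw [h5]
    simp [sy, h1]

end Pool.Agent.NPC.N585FP
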