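import Pool.Agent.N585.FP.Alg

/-!
# The local test decides the local conditions
-/

set_option autoImplicit false

namespace Pool.Agent.NPC.N585FP

open Pool.Agent.N585.FP Pool.Agent.H622R2

theorem chkL_iff (B R : ℕ) (M : List (List Bool)) (U : List ℕ) (l : List (ℕ × ℕ × Bool)) :
    chkL B R (M, U) l = true ↔ (∀ c ∈ l, c.1 = R → ∀ y ∈ U, adjB M c.2.1 y = true →
      ∃ d ∈ l, Near B c.1 d.1 ∧ d.2.1 = y ∧ d.2.2 ≠ c.2.2 ∧
        ∀ d' ∈ l, Near B c.1 d'.1 → d'.2.1 = y → d' = d) ∧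
    ∀ e ∈ pes M B l, ∀ e₁ ∈ pes M B l, ∀ e₂ ∈ pes M B l,
      Cross id e.1 e.2 e₁.1 e₁.2 → Cross id e.1 e.2 e₂.1 e₂.2 → e₁.1 = e₂.1 ∨ e₁.2 = e₂.2 := by
  unfold chkL
  rw [Bool.and_eq_true, fanB_iff]
  simp only [List.all_eq_true, Bool.or_eq_true, Bool.not_eq_true', decide_eq_false_iff_not,
    nbrB_iff]
  constructor
  · rintro ⟨h1, h2⟩
    refine ⟨fun c hc hR => ?_, h2⟩
    rcases h1 c hc with h | h
    · exact absurd hR h
    · exact h
  · rintro ⟨h1, h2⟩
    refine ⟨fun c hc => ?_, h2⟩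
    by_cases hR : c.1 = R
    · exact Or.inr (h1 c hc hR)
    · exact Or.inl hR

theorem loc_of_chk {B R n : ℕ} (hR : 2 * B ≤ R) {M : List (List Bool)} {U : List ℕ}
    {u : ℕ → ℕ × Bool} (hmem : ∀ i < n, (u i).1 ∈ U)
    (h : ∀ t < n + R, chk B R (M, U) (win u n (2 * R + 1) t) = true) :
    Loc (natG M) U.toFinset n B u := by
  refine ⟨fun i hi => by simpa using hmem i hi, ?_, ?_⟩
  · intro i hi x hx hadj
    have h1 := ((chkL_iff B R M U _).1 (h (i + R) (by omega))).1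
    have hc : (R, u i) ∈ ixs (2 * R + 1) (win u n (2 * R + 1) (i + R)) :=
      (mem_win _ _ _ _ _ _).2 ⟨i, hi, by omega, by omega, by omega, rfl⟩
    obtain ⟨d, hd, hn, hy, hs, hu⟩ := h1 _ hc rfl x (by simpa using hx) hadj
    obtain ⟨k, y⟩ := d
    obtain ⟨p, hp1, hp2, hp3, rfl, rfl⟩ := (mem_win _ _ _ _ _ _).1 hd
    simp only [Near] at hn hy hs hu ⊢
    refine ⟨p, hp1, by omega, hy, hs, ?_⟩
    intro q hq hqn hqx
    have h2 := hu (i + R - q, u q) ((mem_win _ _ _ _ _ _).2 ⟨q, hq, by omega, by omega, rfl, rfl⟩)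
      (by simp only []; omega) hqx
    simp only [Prod.mk.injEq] at h2
    omega
  · intro a b a₁ b₁ a₂ b₂ ⟨ha, hb, hn, s1, s2, hadj⟩ ⟨ha1, hb1, hn1, s11, s21, hadj1⟩
      ⟨ha2, hb2, hn2, s12, s22, hadj2⟩ hc1 hc2
    have h1 := ((chkL_iff B R M U _).1 (h (a + R) (by omega))).2
    unfold Near at hn hn1 hn2
    unfold Cross at hc1 hc2
    simp only [id] at hc1 hc2
    have key : ∀ p q : ℕ, p < n → q < n → Near B p q → (u p).2 = true → (u q).2 = false →
        adjB M (u p).1 (u q).1 = true → p ≤ a + R → q ≤ a + R → a + R < p + (2 * R + 1) →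
        a + R < q + (2 * R + 1) →
        (a + R - p, a + R - q) ∈ pes M B (ixs (2 * R + 1) (win u n (2 * R + 1) (a + R))) := by
      intro p q hp hq hpq hp2 hq2 hpqa g1 g2 g3 g4
      refine (mem_pes _ _ _ _).2 ⟨(a + R - p, u p), (mem_win _ _ _ _ _ _).2
        ⟨p, hp, g1, g3, rfl, rfl⟩, (a + R - q, u q), (mem_win _ _ _ _ _ _).2
        ⟨q, hq, g2, g4, rfl, rfl⟩, ?_, hp2, hq2, hpqa, rfl⟩
      unfold Near at hpq ⊢
      simp only []
      omega
    have e := key a b ha hb hn s1 s2 hadj (by omega) (by omega) (by omega) (by omega)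
    have e1 := key a₁ b₁ ha1 hb1 hn1 s11 s21 hadj1 (by omega) (by omega) (by omega) (by omega)
    have e2 := key a₂ b₂ ha2 hb2 hn2 s12 s22 hadj2 (by omega) (by omega) (by omega) (by omega)
    have h2 := h1 _ e _ e1 _ e2
    simp only [Cross, id] at h2
    have h3 := h2 (by omega) (by omega)
    omega

theorem chk_of_loc {B R n : ℕ} (hR : B ≤ R) {M : List (List Bool)} {U : List ℕ}
    {u : ℕ → ℕ × Bool} (h : Loc (natG M) U.toFinset n B u) (t : ℕ) :
    chk B R (M, U) (win u n (2 * R + 1) t) = true := by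
  unfold chk
  rw [chkL_iff]
  constructor
  · rintro ⟨k, y⟩ hc hk x hx hadj
    obtain ⟨i, hi1, hi2, hi3, rfl, rfl⟩ := (mem_win _ _ _ _ _ _).1 hc
    simp only [] at hk hadj
    obtain ⟨j, hj, hn, hjx, hjs, hu⟩ := h.nbr i hi1 x (by simpa using hx) hadj
    unfold Near at hn
    refine ⟨(t - j, u j), (mem_win _ _ _ _ _ _).2 ⟨j, hj, by omega, by omega, rfl, rfl⟩, ?_, hjx,
      hjs, ?_⟩
    · simp only [Near]; omega
    · rintro ⟨k', y'⟩ hd' hn' hy'
      obtain ⟨p, hp1, hp2, hp3, rfl, rfl⟩ := (mem_win _ _ _ _ _ _).1 hd'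
      simp only [Near] at hn' hy'
      have := hu p hp1 (by unfold Near; omega) hy'
      rw [this]
  · intro e he e₁ he₁ e₂ he₂ hc1 hc2
    rw [mem_pes] at he he₁ he₂
    obtain ⟨⟨k, x⟩, hx, ⟨k', y⟩, hy, hn, hs, hs', hadj, rfl⟩ := he
    obtain ⟨⟨k1, x1⟩, hx1, ⟨k1', y1⟩, hy1, hn1, hs1, hs1', hadj1, rfl⟩ := he₁
    obtain ⟨⟨k2, x2⟩, hx2, ⟨k2', y2⟩, hy2, hn2, hs2, hs2', hadj2, rfl⟩ := he₂
    obtain ⟨a, ha1, ha2, ha3, rfl, rfl⟩ := (mem_win _ _ _ _ _ _).1 hx
    obtain ⟨b, hb1, hb2, hb3, rfl, rfl⟩ := (mem_win _ _ _ _ _ _).1 hy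
    obtain ⟨a₁, ha11, ha21, ha31, rfl, rfl⟩ := (mem_win _ _ _ _ _ _).1 hx1
    obtain ⟨b₁, hb11, hb21, hb31, rfl, rfl⟩ := (mem_win _ _ _ _ _ _).1 hy1
    obtain ⟨a₂, ha12, ha22, ha32, rfl, rfl⟩ := (mem_win _ _ _ _ _ _).1 hx2
    obtain ⟨b₂, hb12, hb22, hb32, rfl, rfl⟩ := (mem_win _ _ _ _ _ _).1 hy2
    simp only [Near, Cross, id] at hn hn1 hn2 hc1 hc2 ⊢
    have h1 := h.fan a b a₁ b₁ a₂ b₂ ⟨ha1, hb1, by unfold Near; omega, hs, hs', hadj⟩
      ⟨ha11, hb11, by unfold Near; omega, hs1, hs1', hadj1⟩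
      ⟨ha12, hb12, by unfold Near; omega, hs2, hs2', hadj2⟩
      (by unfold Cross; simp only [id]; omega) (by unfold Cross; simp only [id]; omega)
    omega

/-- The symbols allowed at time `t`. -/
def alph (U : List ℕ) (t : ℕ) : List (Option (ℕ × Bool)) :=
  if t < U.length then U.flatMap fun x => [some (x, true), some (x, false)] else [none]

/-- All symbols. -/
def symbs (U : List ℕ) : List (Option (ℕ × Bool)) :=
  none :: U.flatMap fun x => [some (x, true), some (x, false)]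

theorem alph_sub (U : List ℕ) : ∀ t, ∀ c ∈ alph U t, c ∈ symbs U := by
  intro t c hc
  unfold alph at hc
  unfold symbs
  split_ifs at hc
  · exact List.mem_cons_of_mem _ hc
  · simp at hc
    simp [hc]

theorem mem_pairs (U : List ℕ) (c : Option (ℕ × Bool)) :
    c ∈ (U.flatMap fun x => [some (x, true), some (x, false)]) ↔ ∃ y, c = some y ∧ y.1 ∈ U := by
  simp only [List.mem_flatMap, List.mem_cons, List.not_mem_nil, or_false]
  constructor
  · rintro ⟨x, hx, rfl | rfl⟩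
    · exact ⟨_, rfl, hx⟩
    · exact ⟨_, rfl, hx⟩
  · rintro ⟨⟨x, b⟩, rfl, hx⟩
    refine ⟨x, hx, ?_⟩
    cases b <;> simp

/-- The dynamic program for a connected graph. -/
def connB (B R : ℕ) (x : List (List Bool) × List ℕ) : Bool :=
  !(dp (wordsLe (symbs x.2) (2 * R + 1)) (alph x.2) (chk B R x) (2 * R + 1)
    (x.2.length + R)).isEmpty

theorem connB_iff {B R : ℕ} (hR : 2 * B ≤ R) (M : List (List Bool)) (U : List ℕ) (hU : U.Nodup) :
    connB B R (M, U) = true ↔ ∃ u, Loc (natG M) U.toFinset U.toFinset.card B u := by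
  have hcard : U.toFinset.card = U.length := List.toFinset_card_of_nodup hU
  rw [hcard]
  have h0 : connB B R (M, U) = true ↔ ∃ s, s ∈ dp (wordsLe (symbs U) (2 * R + 1)) (alph U)
      (chk B R (M, U)) (2 * R + 1) (U.length + R) := by
    unfold connB
    rw [Bool.not_eq_true', List.isEmpty_eq_false_iff_exists_mem]
  rw [h0]
  have h1 : (∃ s, s ∈ dp (wordsLe (symbs U) (2 * R + 1)) (alph U)
      (chk B R (M, U)) (2 * R + 1) (U.length + R)) ↔
      ∃ W : ℕ → Option (ℕ × Bool), ∀ t < U.length + R, W t ∈ alph U t ∧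
        chk B R (M, U) ((wd W (t + 1)).take (2 * R + 1)) = true := by
    constructor
    · rintro ⟨s, hs⟩
      obtain ⟨w, hw, hok, -⟩ := (mem_dp (alph_sub U) _ _ _ _).1 hs
      obtain ⟨W, hW⟩ := exists_wd none w
      rw [hw] at hW
      rw [hW, ok_wd] at hok
      exact ⟨W, hok⟩
    · rintro ⟨W, hW⟩
      exact ⟨_, (mem_dp (alph_sub U) _ _ _ _).2 ⟨wd W (U.length + R), wd_length _ _,
        (ok_wd _ _ _ _ _).2 hW, rfl⟩⟩
  rw [h1]
  constructor
  · rintro ⟨W, hW⟩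
    have hW1 : ∀ t < U.length, ∃ y, W t = some y ∧ y.1 ∈ U := by
      intro t ht
      have := (hW t (by omega)).1
      unfold alph at this
      rw [if_pos ht] at this
      exact (mem_pairs _ _).1 this
    have hW2 : ∀ t, U.length ≤ t → t < U.length + R → W t = none := by
      intro t ht ht'
      have := (hW t (by omega)).1
      unfold alph at this
      rw [if_neg (by omega)] at this
      simpa using this
    choose! u hu using hW1
    refine ⟨u, loc_of_chk hR (fun i hi => (hu i hi).2) ?_⟩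
    intro t ht
    have h2 := (hW t ht).2
    have h3 : wd W (t + 1) = wd (sy u U.length) (t + 1) := by
      unfold wd
      congr 1
      apply List.map_congr_left
      intro p hp
      rw [List.mem_range] at hp
      unfold sy
      split_ifs with h4
      · exact (hu p h4).1
      · exact hW2 p (by omega) (by omega)
    rw [h3] at h2
    exact h2
  · rintro ⟨u, hu⟩
    refine ⟨sy u U.length, fun t _ => ⟨?_, chk_of_loc (by omega) hu t⟩⟩
    unfold alph sy
    split_ifs with h2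
    · rw [mem_pairs]
      exact ⟨_, rfl, by simpa using hu.mem t h2⟩
    · simp

end Pool.Agent.NPC.N585FP
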