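import Pool.Agent.N585.FP.PolyP
import Pool.Agent.NPC.Dec

/-!
# The algorithm
-/

set_option autoImplicit false

namespace Pool.Agent.NPC.N585FP

open Pool.Agent.N585.FP Pool.Agent.H622R2

/-! ### The kernel -/

/-- The twin test. -/
def twinB (M : List (List Bool)) (x y : ℕ) : Bool :=
  (List.range M.length).all fun z => !(adjB M x z ^^ adjB M y z)

theorem twinB_iff (M : List (List Bool)) (x y : ℕ) :
    twinB M x y = true ↔ Twin (natG M) (Finset.range M.length) x y := by
  unfold twinB Twin
  simp only [List.all_eq_true, List.mem_range, Finset.mem_range, natG_adj]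
  refine forall_congr' fun z => forall_congr' fun _ => ?_
  cases adjB M x z <;> cases adjB M y z <;> simp

/-- The list of the vertices of the kernel. -/
def kerL (M : List (List Bool)) : List ℕ :=
  (List.range M.length).filter fun x =>
    decide (((List.range M.length).filter fun y => decide (y < x) && twinB M x y).length < 3)

theorem kerL_nodup (M : List (List Bool)) : (kerL M).Nodup := List.nodup_range.filter _

theorem kerL_toFinset (M : List (List Bool)) :
    (kerL M).toFinset = ker (natG M) M.length := by
  classical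
  ext x
  unfold kerL ker
  simp only [List.mem_toFinset, List.mem_filter, List.mem_range, decide_eq_true_eq,
    Finset.mem_filter, Finset.mem_range]
  refine and_congr_right fun hx => ?_
  have h1 : ((List.range M.length).filter fun y => decide (y < x) && twinB M x y).length =
      ((List.range M.length).filter fun y => decide (y < x) && twinB M x y).toFinset.card :=
    (List.toFinset_card_of_nodup (List.nodup_range.filter _)).symm
  rw [h1]
  have h2 : ((List.range M.length).filter fun y => decide (y < x) && twinB M x y).toFinset =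
      (Finset.range x).filter fun y => Twin (natG M) (Finset.range M.length) x y := by
    ext y
    simp only [List.mem_toFinset, List.mem_filter, List.mem_range, Bool.and_eq_true,
      decide_eq_true_eq, Finset.mem_filter, Finset.mem_range, twinB_iff]
    constructor
    · rintro ⟨-, h3, h4⟩
      exact ⟨h3, h4⟩
    · rintro ⟨h3, h4⟩
      exact ⟨by omega, h3, h4⟩
  rw [h2]

/-! ### Components -/

/-- One step of the search. -/
def stepL (M : List (List Bool)) (K C : List ℕ) : List ℕ :=
  K.filter fun y => C.any fun z => decide (z = y) || adjB M z y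

/-- The component of `x`. -/
def compL (M : List (List Bool)) (K : List ℕ) (x : ℕ) : List ℕ :=
  K.foldl (fun C _ => stepL M K C) [x]

theorem mem_stepL (M : List (List Bool)) (K C : List ℕ) (y : ℕ) :
    y ∈ stepL M K C ↔ y ∈ K ∧ ∃ z ∈ C, z = y ∨ adjB M z y = true := by
  unfold stepL
  simp

theorem foldl_const {σ : Type} (f : σ → σ) (l : List ℕ) (s : σ) :
    l.foldl (fun C _ => f C) s = f^[l.length] s := by
  induction l generalizing s with
  | nil => rfl
  | cons a l ih => rw [List.foldl_cons, ih]; rfl

theorem compL_toFinset (M : List (List Bool)) (K : List ℕ) (hK : K.Nodup) (x : ℕ) (hx : x ∈ K) :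
    (compL M K x).Nodup ∧ (compL M K x).toFinset = comp (natG M) K.toFinset x := by
  classical
  have hit : compL M K x = (stepL M K)^[K.length] [x] := foldl_const (stepL M K) K [x]
  have hpos : 0 < K.length := List.length_pos_of_mem hx
  have hnd : ∀ k, ((stepL M K)^[k] [x]).Nodup := by
    intro k
    cases k with
    | zero => simp
    | succ k => rw [Function.iterate_succ_apply']; exact hK.filter _
  have hsub : ∀ k, ∀ y ∈ (stepL M K)^[k] [x], y ∈ K := by
    intro k
    cases k with
    | zero => intro y hy; simp at hy; rw [hy]; exact hx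
    | succ k =>
      rw [Function.iterate_succ_apply']
      intro y hy
      exact ((mem_stepL _ _ _ _).1 hy).1
  have hmono : ∀ k, ∀ y ∈ (stepL M K)^[k] [x], y ∈ (stepL M K)^[k + 1] [x] := by
    intro k y hy
    rw [Function.iterate_succ_apply', mem_stepL]
    exact ⟨hsub k y hy, y, hy, Or.inl rfl⟩
  have hmono0 : ∀ k, x ∈ (stepL M K)^[k] [x] := by
    intro k
    induction k with
    | zero => simp
    | succ k ih => exact hmono k x ih
  -- either stable or growing
  have hgrow : ∀ k, (∃ j, j ≤ k ∧ ∀ y, y ∈ (stepL M K)^[j + 1] [x] → y ∈ (stepL M K)^[j] [x]) ∨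
      k + 2 ≤ ((stepL M K)^[k + 1] [x]).toFinset.card := by
    intro k
    induction k with
    | zero =>
      by_cases h : ∀ y, y ∈ (stepL M K)^[0 + 1] [x] → y ∈ (stepL M K)^[0] [x]
      · exact Or.inl ⟨0, le_rfl, h⟩
      · right
        push Not at h
        obtain ⟨y, hy, hy'⟩ := h
        have h1 : ({x, y} : Finset ℕ) ⊆ ((stepL M K)^[0 + 1] [x]).toFinset := by
          intro z hz
          simp only [Finset.mem_insert, Finset.mem_singleton] at hz
          rw [List.mem_toFinset]
          rcases hz with rfl | rfl
          · exact hmono0 _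
          · exact hy
        have h2 : ({x, y} : Finset ℕ).card = 2 := Finset.card_pair (by
          rintro rfl; exact hy' (hmono0 0))
        have := Finset.card_le_card h1
        omega
    | succ k ih =>
      rcases ih with ⟨j, hj, h⟩ | ih
      · exact Or.inl ⟨j, by omega, h⟩
      · by_cases h : ∀ y, y ∈ (stepL M K)^[k + 1 + 1] [x] → y ∈ (stepL M K)^[k + 1] [x]
        · exact Or.inl ⟨k + 1, le_rfl, h⟩
        · right
          push Not at h
          obtain ⟨y, hy, hy'⟩ := h
          have h1 : insert y ((stepL M K)^[k + 1] [x]).toFinset ⊆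
              ((stepL M K)^[k + 1 + 1] [x]).toFinset := by
            intro z hz
            rw [Finset.mem_insert, List.mem_toFinset] at hz
            rw [List.mem_toFinset]
            rcases hz with rfl | hz
            · exact hy
            · exact hmono _ _ hz
          have h2 := Finset.card_le_card h1
          rw [Finset.card_insert_of_notMem (by rwa [List.mem_toFinset])] at h2
          omega
  have hle : ∀ k, ((stepL M K)^[k] [x]).toFinset.card ≤ K.length := by
    intro k
    rw [← List.toFinset_card_of_nodup hK]
    refine Finset.card_le_card fun y hy => ?_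
    rw [List.mem_toFinset] at hy ⊢
    exact hsub k y hy
  obtain ⟨j, hj, hst⟩ : ∃ j, j ≤ K.length - 1 ∧
      ∀ y, y ∈ (stepL M K)^[j + 1] [x] → y ∈ (stepL M K)^[j] [x] := by
    rcases hgrow (K.length - 1) with h | h
    · exact h
    · have := hle (K.length - 1 + 1)
      omega
  -- the set at time `j` is closed
  have hmono' : ∀ i k, ∀ y ∈ (stepL M K)^[i] [x], y ∈ (stepL M K)^[i + k] [x] := by
    intro i k y hy
    induction k with
    | zero => exact hy
    | succ k ih => exact hmono _ _ ih
  have hclosed : ∀ y z, y ∈ (stepL M K)^[j] [x] → z ∈ K → adjB M y z = true →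
      z ∈ (stepL M K)^[j] [x] := by
    intro y z hy hz hyz
    apply hst
    rw [Function.iterate_succ_apply', mem_stepL]
    exact ⟨hz, y, hy, Or.inr hyz⟩
  have hreach : ∀ y, Reach (natG M) K.toFinset x y → y ∈ (stepL M K)^[j] [x] := by
    intro y hy
    unfold Reach at hy
    induction hy with
    | refl => exact hmono0 j
    | tail _ h ih =>
      obtain ⟨_, h2, h3⟩ := h
      exact hclosed _ _ ih (by simpa using h2) h3
  have hreach' : ∀ k, ∀ y ∈ (stepL M K)^[k] [x], Reach (natG M) K.toFinset x y := by
    intro k
    induction k with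
    | zero =>
      intro y hy
      simp at hy
      rw [hy]
      exact Relation.ReflTransGen.refl
    | succ k ih =>
      intro y hy
      rw [Function.iterate_succ_apply', mem_stepL] at hy
      obtain ⟨hy1, z, hz, rfl | h⟩ := hy
      · exact ih _ hz
      · exact Relation.ReflTransGen.tail (ih z hz) ⟨by simpa using hsub _ _ hz, by simpa using hy1, h⟩
  rw [hit]
  refine ⟨hnd _, ?_⟩
  ext y
  unfold comp
  rw [List.mem_toFinset, Finset.mem_filter, List.mem_toFinset]
  constructor
  · intro hy
    exact ⟨hsub _ _ hy, hreach' _ _ hy⟩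
  · rintro ⟨hy, hr⟩
    have h1 := hmono' j (K.length - j) y (hreach y hr)
    rwa [show j + (K.length - j) = K.length by omega] at h1

/-! ### The algorithm -/

/-- The algorithm, with the parameters `B` and `R`. -/
def algB (B R : ℕ) (M : List (List Bool)) : Bool :=
  (kerL M).all fun x => connB B R (M, compL M (kerL M) x)

section Poly

variable {α : Type} [TEnc α]

@[fun_prop] theorem poly_rangeLen {β : Type} [TEnc β] {M : α → List β} (hM : Poly M) :
    Poly (fun a => List.range (M a).length) := Poly.range_length hM

@[fun_prop] theorem poly_twinB {M : α → List (List Bool)} {x y : α → ℕ} (hM : Poly M) (hx : Poly x)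
    (hy : Poly y) : Poly (fun a => twinB (M a) (x a) (y a)) := by
  unfold twinB
  fun_prop

@[fun_prop] theorem poly_kerL {M : α → List (List Bool)} (hM : Poly M) :
    Poly (fun a => kerL (M a)) := by
  unfold kerL
  fun_prop

@[fun_prop] theorem poly_stepL {M : α → List (List Bool)} {K C : α → List ℕ} (hM : Poly M)
    (hK : Poly K) (hC : Poly C) : Poly (fun a => stepL (M a) (K a) (C a)) := by
  unfold stepL
  fun_prop

theorem sz_foldl_stepL (M : List (List Bool)) (K : List ℕ) : ∀ (l S : List ℕ),
    sz (l.foldl (fun C _ => stepL M K C) S) ≤ max (sz S) (sz K) := by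
  intro l
  induction l with
  | nil => intro S; simp
  | cons b l ih =>
    intro S
    rw [List.foldl_cons]
    refine (ih _).trans (max_le ?_ (le_max_right _ _))
    exact (sz_filter_le _ _).trans (le_max_right _ _)

theorem poly_compL' : Poly (fun p : List (List Bool) × List ℕ × ℕ => compL p.1 p.2.1 p.2.2) := by
  have h1 : Poly (fun p : List (List Bool) × List ℕ × ℕ => p.2.1) := Poly.fst (Poly.snd Poly.id)
  have h2 : Poly (fun p : List (List Bool) × List ℕ × ℕ => [p.2.2]) :=
    Poly.cons (Poly.snd (Poly.snd Poly.id)) (Poly.const [])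
  have h3 : Poly (fun p : (List (List Bool) × List ℕ × ℕ) × List ℕ × ℕ =>
      stepL p.1.1 p.1.2.1 p.2.1) :=
    poly_stepL (Poly.fst (Poly.fst Poly.id)) (Poly.fst (Poly.snd (Poly.fst Poly.id)))
      (Poly.fst (Poly.snd Poly.id))
  have h4 := Poly.foldl (F := fun (p : List (List Bool) × List ℕ × ℕ) (C : List ℕ) (_ : ℕ) =>
    stepL p.1 p.2.1 C) h1 h2 h3 (Polynomial.X + Polynomial.C 5)
  refine h4 ?_
  intro p k _
  have h5 := sz_foldl_stepL p.1 p.2.1 (p.2.1.take k) [p.2.2]
  have h6 : sz [p.2.2] = sz p.2.2 + 2 := by simp
  have h7 : sz p = sz p.1 + (sz p.2.1 + sz p.2.2 + 1) + 1 := by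
    obtain ⟨a, b, c⟩ := p
    simp
  rw [h6] at h5
  rw [Polynomial.eval_add, Polynomial.eval_C, Polynomial.eval_X, h7]
  refine h5.trans (max_le ?_ ?_)
  · omega
  · omega

theorem poly_compL {M : α → List (List Bool)} {K : α → List ℕ} {x : α → ℕ}
    (hM : Poly M) (hK : Poly K) (hx : Poly x) : Poly (fun a => compL (M a) (K a) (x a)) := by
  have h := Poly.comp poly_compL' (Poly.pair hM (Poly.pair hK hx))
  exact h

theorem poly_algB (B R : ℕ) : Poly (algB B R) := by
  unfold algB
  refine Poly.all (l := fun M => kerL M) (p := fun M x => connB B R (M, compL M (kerL M) x))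
    (by fun_prop) ?_
  exact (poly_connB B R).comp (Poly.pair (Poly.fst Poly.id)
    (poly_compL (Poly.fst Poly.id) (poly_kerL (Poly.fst Poly.id)) (Poly.snd Poly.id)))

end Poly

/-- The local conditions decide drawability of connected graphs. -/
theorem conn_iff (h5 : StmBand) (h6 : StmLoc) (h6' : StmLoc') (G : SimpleGraph ℕ) (C : Finset ℕ)
    (hC : Conn G C) (D : ℕ) (hD : Drawable G C → DegLe G C D) :
    Drawable G C ↔ ∃ u, Loc G C C.card (4 * D) u := by
  constructor
  · intro hd
    by_cases hn : ∀ x ∈ C, ∃ y ∈ C, G.Adj x y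
    · obtain ⟨side, q, hq, hlt, hb⟩ := h5 G C D (hD hd) hn hd
      exact h6' G C _ side q hq hlt hb
    · push Not at hn
      obtain ⟨x, hx, hx'⟩ := hn
      have hC1 : C = {x} := by
        ext y
        rw [Finset.mem_singleton]
        constructor
        · intro hy
          have h1 := hC x hx y hy
          unfold Reach at h1
          rcases Relation.ReflTransGen.cases_head h1 with h | ⟨z, hz, _⟩
          · exact h.symm
          · exact absurd hz.2.2 (hx' z hz.2.1)
        · rintro rfl
          exact hx
      subst hC1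
      refine h6' G {x} _ (fun _ => true) (fun _ => 0) ⟨?_, ?_, ?_⟩ ?_ ?_
      · intro y hy z hz _
        rw [Finset.mem_singleton] at hy hz
        rw [hy, hz]
      · intro y hy z hz hyz
        rw [Finset.mem_singleton] at hy hz
        rw [hy, hz] at hyz
        exact absurd hyz (G.loopless.irrefl x)
      · intro a b _ _ _ _ h _ _ hc _
        exact absurd hc (by simp [Cross])
      · intro y _
        simp
      · intro y hy z hz _
        simp
  · rintro ⟨u, hu⟩
    exact h6 G C _ u hC hu

/-- **Correctness of the algorithm.** -/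
theorem algB_iff (h1 : StmGeo) (h3 : StmKer) (h4 : StmDeg) (h5 : StmBand) (h6 : StmLoc)
    (h6' : StmLoc') (h7 : StmComp) (M : List (List Bool)) :
    TwoLayerFanPlanar (matGraph M) ↔ algB 64 128 M = true := by
  rw [h1 M.length (matGraph M) (natG M) (by
    intro i j
    simp only [matGraph, natG, adjB, Bool.and_eq_true, Bool.or_eq_true, Bool.not_eq_true',
      decide_eq_false_iff_not, ne_eq, Fin.ext_iff])]
  rw [(h3 (natG M) M.length).1, ← kerL_toFinset, (h7 (natG M) (kerL M).toFinset).1]
  unfold algB
  rw [List.all_eq_true]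
  constructor
  · intro h x hx
    have hx' : x ∈ (kerL M).toFinset := by simpa using hx
    obtain ⟨hnd, hcomp⟩ := compL_toFinset M (kerL M) (kerL_nodup M) x hx
    rw [connB_iff (by norm_num) M _ hnd, hcomp]
    have hk := h3 (natG M) M.length
    rw [← kerL_toFinset] at hk
    have hn := (h7 (natG M) (kerL M).toFinset).2.1 hk.2 x hx'
    exact (conn_iff h5 h6 h6' _ _ ((h7 _ _).2.2 x hx') 16 (h4 _ _ hn)).1 (h x hx')
  · intro h x hx
    have hx' : x ∈ kerL M := by simpa using hx
    obtain ⟨hnd, hcomp⟩ := compL_toFinset M (kerL M) (kerL_nodup M) x hx'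
    have h2 := h x hx'
    rw [connB_iff (by norm_num) M _ hnd, hcomp] at h2
    have hk := h3 (natG M) M.length
    rw [← kerL_toFinset] at hk
    have hn := (h7 (natG M) (kerL M).toFinset).2.1 hk.2 x hx
    exact (conn_iff h5 h6 h6' _ _ ((h7 _ _).2.2 x hx) 16 (h4 _ _ hn)).2 h2

theorem inPP_twoLayer (h1 : StmGeo) (h3 : StmKer) (h4 : StmDeg) (h5 : StmBand) (h6 : StmLoc)
    (h6' : StmLoc') (h7 : StmComp) :
    InPP (fun M : List (List Bool) => TwoLayerFanPlanar (matGraph M)) :=
  inPP_of (poly_algB 64 128) (algB_iff h1 h3 h4 h5 h6 h6' h7)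

end Pool.Agent.NPC.N585FP
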