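import Pool.Agent.H671R2.PolyAuto

/-!
# Dynamic programming over words with local conditions, in polynomial time
-/

set_option autoImplicit false

namespace Pool.Agent.NPC.N585FP



/-- All words of length at most `k` over the list `A`. -/
def wordsLe {σ : Type} (A : List σ) : ℕ → List (List σ)
  | 0 => [[]]
  | k + 1 => [] :: (wordsLe A k).flatMap fun w => A.map fun c => c :: w

theorem mem_wordsLe {σ : Type} (A : List σ) : ∀ (k : ℕ) (w : List σ),
    w ∈ wordsLe A k ↔ w.length ≤ k ∧ ∀ c ∈ w, c ∈ A
  | 0, w => by
    cases w with
    | nil => simp [wordsLe]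
    | cons c w => simp [wordsLe]
  | k + 1, w => by
    cases w with
    | nil => simp [wordsLe]
    | cons c w =>
      simp only [wordsLe, List.mem_cons, List.mem_flatMap, List.mem_map, mem_wordsLe A k,
        List.length_cons]
      constructor
      · rintro (h | ⟨w', ⟨h1, h2⟩, c', hc', h3⟩)
        · exact absurd h (by simp)
        · simp only [List.cons.injEq] at h3
          obtain ⟨rfl, rfl⟩ := h3
          refine ⟨by omega, ?_⟩
          rintro d (rfl | hd)
          · exact hc'
          · exact h2 d hd
      · rintro ⟨h1, h2⟩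
        exact Or.inr ⟨w, ⟨by omega, fun d hd => h2 d (Or.inr hd)⟩, c, h2 c (Or.inl rfl), rfl⟩

/-- Acceptable words (newest symbol first). -/
def Ok {σ : Type} (al : ℕ → List σ) (chk : List σ → Bool) (L : ℕ) : List σ → Prop
  | [] => True
  | c :: w => Ok al chk L w ∧ c ∈ al w.length ∧ chk ((c :: w).take L) = true

section Dec

variable {σ : Type} [DecidableEq σ]

/-- One step: the states reachable at time `t + 1` from those reachable at time `t`. -/
def dpStep (st : List (List σ)) (al : ℕ → List σ) (chk : List σ → Bool) (L : ℕ)
    (S : List (List σ)) (t : ℕ) : List (List σ) :=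
  st.filter fun s' => chk s' && S.any fun s => (al t).any fun c => decide (s' = (c :: s).take L)

/-- The reachable states at time `T`. -/
def dp (st : List (List σ)) (al : ℕ → List σ) (chk : List σ → Bool) (L T : ℕ) : List (List σ) :=
  (List.range T).foldl (dpStep st al chk L) [[]]

theorem mem_dp {A : List σ} {al : ℕ → List σ} (hA : ∀ t, ∀ c ∈ al t, c ∈ A)
    (chk : List σ → Bool) (L : ℕ) : ∀ (T : ℕ) (s : List σ), s ∈ dp (wordsLe A L) al chk L T ↔
      ∃ w : List σ, w.length = T ∧ Ok al chk L w ∧ s = w.take L
  | 0, s => by
    simp only [dp, List.range_zero, List.foldl_nil, List.mem_singleton, List.length_eq_zero_iff]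
    constructor
    · rintro rfl
      exact ⟨[], rfl, trivial, by simp⟩
    · rintro ⟨w, rfl, -, rfl⟩
      simp
  | T + 1, s => by
    have ih := mem_dp hA chk L T
    have hstep : dp (wordsLe A L) al chk L (T + 1) =
        dpStep (wordsLe A L) al chk L (dp (wordsLe A L) al chk L T) T := by
      unfold dp
      rw [List.range_succ, List.foldl_append]
      rfl
    rw [hstep]
    unfold dpStep
    rw [List.mem_filter]
    simp only [Bool.and_eq_true, List.any_eq_true, decide_eq_true_eq, mem_wordsLe]
    constructor
    · rintro ⟨-, hchk, s0, hs0, c, hc, hs⟩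
      obtain ⟨w, hw, hok, rfl⟩ := (ih s0).1 hs0
      have h1 : s = (c :: w).take L := by
        rw [hs]
        cases L with
        | zero => simp
        | succ L => simp [List.take_take]
      refine ⟨c :: w, by simp [hw], ⟨hok, by rw [hw]; exact hc, by rw [← h1]; exact hchk⟩, h1⟩
    · rintro ⟨w, hw, hok, rfl⟩
      cases w with
      | nil => simp at hw
      | cons c w =>
        obtain ⟨hok1, hc, hchk⟩ := hok
        have hwl : w.length = T := by simpa using hw
        have hall : ∀ (w : List σ), Ok al chk L w → ∀ d ∈ w, d ∈ A := by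
          intro w
          induction w with
          | nil => intro _ d hd; simp at hd
          | cons e w ih' =>
            rintro ⟨h1, h2, -⟩ d hd
            rcases List.mem_cons.1 hd with rfl | hd
            · exact hA _ _ h2
            · exact ih' h1 d hd
        refine ⟨⟨List.length_take_le _ _, fun d hd => ?_⟩, hchk, w.take L,
          (ih _).2 ⟨w, hwl, hok1, rfl⟩, c, by rw [← hwl]; exact hc, ?_⟩
        · exact hall (c :: w) ⟨hok1, hc, hchk⟩ d (List.mem_of_mem_take hd)
        · cases L with
          | zero => simp
          | succ L => simp [List.take_take]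

end Dec

section Poly

variable {α σ : Type} [TEnc α] [TEnc σ]

theorem poly_wordsLe {A : α → List σ} (hA : Poly A) : ∀ k : ℕ, Poly (fun a => wordsLe (A a) k)
  | 0 => Poly.const _
  | k + 1 => by
    have ih := poly_wordsLe hA k
    unfold wordsLe
    refine Poly.cons (Poly.const _) (Poly.flatMap (F := fun a w => (A a).map fun c => c :: w) ih ?_)
    exact Poly.map (l := fun p : α × List σ => A p.1) (F := fun p c => c :: p.2)
      (hA.comp (Poly.fst Poly.id)) (Poly.cons (Poly.snd Poly.id) (Poly.snd (Poly.fst Poly.id)))

theorem poly_take : ∀ (k : ℕ), Poly (fun l : List σ => l.take k)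
  | 0 => (Poly.const ([] : List σ)).congr fun l => by simp
  | k + 1 => by
    have ih := poly_take k
    refine (Poly.listCases (l := fun l : List σ => l) (g := fun _ => ([] : List σ))
      (h := fun _ b t => b :: t.take k) Poly.id (Poly.const _)
      (Poly.cons (Poly.fst (Poly.snd Poly.id)) (ih.comp (Poly.snd (Poly.snd Poly.id))))).congr ?_
    intro l
    cases l <;> simp

theorem sz_filter_le (l : List σ) (p : σ → Bool) : sz (l.filter p) ≤ sz l := by
  induction l with
  | nil => simp
  | cons a l ih =>
    rw [List.filter_cons]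
    split_ifs
    · simp only [sz_list_cons]; omega
    · simp only [sz_list_cons]; omega

variable [DecidableEq σ]

theorem poly_dp {A : α → List σ} (hA : Poly A) {al : α → ℕ → List σ}
    (hal : Poly fun p : α × ℕ => al p.1 p.2) {chk : α → List σ → Bool}
    (hchk : Poly fun p : α × List σ => chk p.1 p.2) (L : ℕ) {T : α → ℕ} (hT : UPoly T) :
    Poly (fun a => dp (wordsLe (A a) L) (al a) (chk a) L (T a)) := by
  have hW := poly_wordsLe hA L
  obtain ⟨q, hq⟩ := hW.sz_le
  have hstep : Poly (fun p : α × List (List σ) × ℕ =>
      dpStep (wordsLe (A p.1) L) (al p.1) (chk p.1) L p.2.1 p.2.2) := by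
    unfold dpStep
    refine Poly.filter (l := fun p : α × List (List σ) × ℕ => wordsLe (A p.1) L)
      (p := fun p s' => chk p.1 s' && p.2.1.any fun s => (al p.1 p.2.2).any fun c =>
        decide (s' = (c :: s).take L)) (hW.comp (Poly.fst Poly.id)) ?_
    refine Poly.and (hchk.comp (Poly.pair (Poly.fst (Poly.fst Poly.id)) (Poly.snd Poly.id))) ?_
    refine Poly.any (l := fun x : (α × List (List σ) × ℕ) × List σ => x.1.2.1)
      (p := fun x s => (al x.1.1 x.1.2.2).any fun c => decide (x.2 = (c :: s).take L))
      (Poly.fst (Poly.snd (Poly.fst Poly.id))) ?_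
    refine Poly.any (l := fun x : ((α × List (List σ) × ℕ) × List σ) × List σ =>
        al x.1.1.1 x.1.1.2.2)
      (p := fun x c => decide (x.1.2 = (c :: x.2).take L))
      (hal.comp (Poly.pair (Poly.fst (Poly.fst (Poly.fst Poly.id)))
        (Poly.snd (Poly.snd (Poly.fst (Poly.fst Poly.id)))))) ?_
    exact Poly.decide_eq (Poly.snd (Poly.fst (Poly.fst Poly.id)))
      ((poly_take L).comp (Poly.cons (Poly.snd Poly.id) (Poly.snd (Poly.fst Poly.id))))
  refine Poly.foldl (l := fun a => List.range (T a)) (s := fun _ => [[]])
    (F := fun a S t => dpStep (wordsLe (A a) L) (al a) (chk a) L S t) hT.range (Poly.const _)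
    hstep (q + Polynomial.C 3) ?_
  intro a k _
  have h1 : ∀ (l : List ℕ) (S : List (List σ)),
      sz (l.foldl (dpStep (wordsLe (A a) L) (al a) (chk a) L) S) ≤
        max (sz S) (sz (wordsLe (A a) L)) := by
    intro l
    induction l with
    | nil => intro S; simp
    | cons b l ih =>
      intro S
      rw [List.foldl_cons]
      refine (ih _).trans (max_le ?_ (le_max_right _ _))
      exact (sz_filter_le _ _).trans (le_max_right _ _)
  have h2 := h1 ((List.range (T a)).take k) [[]]
  have h3 := hq a
  simp only [Polynomial.eval_add, Polynomial.eval_C]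
  refine h2.trans (max_le ?_ (by omega))
  simp

end Poly

end Pool.Agent.NPC.N585FP
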